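import Pool.Agent.helper62.DP8.Spec

/-!
# Project sq8:, module BAL
-/

set_option autoImplicit false

namespace Pool.Agent.helper62.DP8

theorem BAL_walk (hBIT : BIT_stmt) (hORS : ORS_stmt) (hTAB : TAB_stmt) (hWTB : WTB_stmt) (hTRR : TRR_stmt) (V : Type) (G : SimpleGraph V) (g : ℕ)
    (s : St) (v : ℕ → V) (hR : Real G s v) (k : ℕ) : ∀ x y,
    tb (ent (ball s.n (tbl g s).R k) x) y = true → x < s.n ∧ y < s.n ∧ ∃ p : G.Walk (v x) (v y), p.length ≤ k ∧
      (∀ z ∈ p.support, ∃ w < s.n, z = v w) ∧ (∀ e ∈ p.edges, ∃ a b, e = s(v a, v b) ∧ tb (ent (tbl g s).R a) b = true) := by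
  obtain ⟨_, hlor, _, _, hsh, _, _⟩ := hBIT
  obtain ⟨hors, _⟩ := hORS
  obtain ⟨_, _, htab, _⟩ := hTAB
  obtain ⟨_, _, hb0, hb1⟩ := hWTB
  obtain ⟨_, htr⟩ := hTRR V G g s v hR
  induction k with
  | zero =>
    intro x y h
    rw [hb0] at h
    obtain ⟨h1, h2, h3⟩ := (htab _ _ _ _).1 h
    have h4 : tb (Nat.shiftLeft 1 x) y = true := h3
    rw [hsh] at h4
    have h5 : y = x := of_decide_eq_true h4
    subst h5
    refine ⟨h1, h1, SimpleGraph.Walk.nil, by simp, ?_, ?_⟩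
    · intro z hz
      refine ⟨y, h1, ?_⟩
      simpa using hz
    · intro e he
      simp at he
  | succ k ih =>
    intro x y h
    rw [hb1] at h
    obtain ⟨h1, h2, h3⟩ := (htab _ _ _ _).1 h
    have h4 : tb (Nat.lor (ent (ball s.n (tbl g s).R k) x) (orS (ent (tbl g s).R x) (fun y => ent (ball s.n (tbl g s).R k) y) s.n)) y = true := h3
    rw [hlor, Bool.or_eq_true] at h4
    rcases h4 with h4 | h4
    · obtain ⟨a1, a2, p, a3, a4, a5⟩ := ih x y h4
      exact ⟨a1, a2, p, by omega, a4, a5⟩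
    · obtain ⟨w, hw, hw1, hw2⟩ := (hors _ _ _ _).1 h4
      obtain ⟨a1, a2, p, a3, a4, a5⟩ := ih w y hw2
      obtain ⟨b1, b2, b3, b4, b5⟩ := htr x w hw1
      refine ⟨b1, a2, SimpleGraph.Walk.cons b4 p, ?_, ?_, ?_⟩
      · rw [SimpleGraph.Walk.length_cons]
        omega
      · intro z hz
        rw [SimpleGraph.Walk.support_cons, List.mem_cons] at hz
        rcases hz with hz | hz
        · exact ⟨x, b1, hz⟩
        · exact a4 z hz
      · intro e he
        rw [SimpleGraph.Walk.edges_cons, List.mem_cons] at he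
        rcases he with he | he
        · exact ⟨x, w, he, hw1⟩
        · exact a5 e he

theorem BAL (hBIT : BIT_stmt) (hORS : ORS_stmt) (hTAB : TAB_stmt) (hWTB : WTB_stmt) (hTRR : TRR_stmt) : BAL_stmt := by
  intro V G g s v hR k x y h
  classical
  obtain ⟨a1, a2, p, a3, a4, a5⟩ := BAL_walk hBIT hORS hTAB hWTB hTRR V G g s v hR k x y h
  obtain ⟨_, htr⟩ := hTRR V G g s v hR
  refine ⟨a1, a2, p.bypass, p.bypass_isPath, le_trans p.length_bypass_le_length a3, ?_, ?_⟩
  · intro z hz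
    exact a4 z (p.support_bypass_subset_support hz)
  · intro a ha b hb hab
    obtain ⟨a', b', h1, h2⟩ := a5 _ (p.edges_bypass_subset_edges hab)
    obtain ⟨c1, c2, _, _, c5⟩ := htr a' b' h2
    rw [Sym2.eq_iff] at h1
    rcases h1 with ⟨h3, h4⟩ | ⟨h3, h4⟩
    · have e1 := hR.inj a ha a' c1 h3
      have e2 := hR.inj b hb b' c2 h4
      rw [e1, e2]
      exact h2
    · have e1 := hR.inj a ha b' c2 h3
      have e2 := hR.inj b hb a' c1 h4
      rw [e1, e2]
      exact c5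

end Pool.Agent.helper62.DP8
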